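import Mathlib

/-!
# Poincare's inequality for weakly differentiable functions
-/

set_option autoImplicit false
set_option maxSynthPendingDepth 3

open scoped ContDiff Topology ENNReal
open MeasureTheory Set Metric Filter

namespace Pool.Agent.Y419.SY

variable {E : Type} [NormedAddCommGroup E] [InnerProductSpace ℝ E] [FiniteDimensional ℝ E]
  [MeasurableSpace E] [BorelSpace E]
  {V : Type} [NormedAddCommGroup V] [NormedSpace ℝ V] [FiniteDimensional ℝ V]

omit [FiniteDimensional ℝ E] [MeasurableSpace E] [BorelSpace E] in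
/-- the increment along a segment -/
theorem seg {h : E → V} (hh : ContDiff ℝ 1 h) (z s : E) :
    ‖h (z + s) - h z‖ₑ ≤ ∫⁻ t in Ioc (0 : ℝ) 1, ‖fderiv ℝ h (z + t • s)‖ₑ * ‖s‖ₑ := by
  have : CompleteSpace V := FiniteDimensional.complete ℝ V
  have hd : ∀ t : ℝ, HasDerivAt (fun t : ℝ => h (z + t • s)) (fderiv ℝ h (z + t • s) s) t := by
    intro t
    have h1 : HasDerivAt (fun t : ℝ => z + t • s) s t := by
      have h2 := ((hasDerivAt_id t).smul_const s).const_add z
      simpa using h2
    exact ((hh.differentiable one_ne_zero) (z + t • s)).hasFDerivAt.comp_hasDerivAt t h1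
  have hc : Continuous (fun t : ℝ => fderiv ℝ h (z + t • s) s) := by
    have h1 := hh.continuous_fderiv one_ne_zero
    fun_prop
  have h3 := intervalIntegral.integral_eq_sub_of_hasDerivAt (a := 0) (b := 1)
    (fun t _ => hd t) (hc.intervalIntegrable 0 1)
  simp only [one_smul, zero_smul, add_zero] at h3
  rw [← h3, intervalIntegral.integral_of_le zero_le_one]
  refine (enorm_integral_le_lintegral_enorm _).trans ?_
  refine lintegral_mono fun t => ?_
  exact (fderiv ℝ h (z + t • s)).le_opENorm s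

/-- the `C^1` case -/
theorem c1 {h : E → V} (hh : ContDiff ℝ 1 h) (x : E) (r : ℝ) :
    ∫⁻ z in ball x r, ∫⁻ y in ball x r, ‖h y - h z‖ₑ ≤
      ENNReal.ofReal (2 * r) * volume (ball (0 : E) (2 * r)) *
        ∫⁻ y in ball x r, ‖fderiv ℝ h y‖ₑ := by
  obtain ⟨D, hD⟩ : ∃ D : E → ℝ≥0∞, D = (ball x r).indicator (fun y => ‖fderiv ℝ h y‖ₑ) := ⟨_, rfl⟩
  have hDm : Measurable D := by
    rw [hD]
    exact ((hh.continuous_fderiv one_ne_zero).enorm.measurable).indicator measurableSet_ball
  have hDi : ∫⁻ y, D y = ∫⁻ y in ball x r, ‖fderiv ℝ h y‖ₑ := by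
    rw [hD, lintegral_indicator measurableSet_ball]
  rw [← hDi]
  have h1 : ∀ z ∈ ball x r, ∫⁻ y in ball x r, ‖h y - h z‖ₑ ≤
      ∫⁻ s in ball (0 : E) (2 * r), ENNReal.ofReal (2 * r) *
        ∫⁻ t in Ioc (0 : ℝ) 1, D (z + t • s) := by
    intro z hz
    have e1 : ∫⁻ y in ball x r, ‖h y - h z‖ₑ =
        ∫⁻ s, (ball x r).indicator (fun y => ‖h y - h z‖ₑ) (z + s) := by
      rw [lintegral_add_left_eq_self, lintegral_indicator measurableSet_ball]
    rw [e1, ← lintegral_indicator measurableSet_ball]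
    refine lintegral_mono fun s => ?_
    by_cases hs : z + s ∈ ball x r
    · have hs2 : s ∈ ball (0 : E) (2 * r) := by
        rw [mem_ball_zero_iff]
        rw [mem_ball, dist_eq_norm] at hs hz
        have e2 : s = (z + s - x) - (z - x) := by abel
        rw [e2]
        refine (norm_sub_le _ _).trans_lt ?_
        linarith
      rw [indicator_of_mem hs, indicator_of_mem hs2]
      refine (seg hh z s).trans ?_
      have hmt : Measurable fun t : ℝ => D (z + t • s) := hDm.comp (by fun_prop)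
      rw [← lintegral_const_mul _ hmt]
      refine setLIntegral_mono' measurableSet_Ioc fun t ht => ?_
      have hmem : z + t • s ∈ ball x r := by
        have h2 : z + t • s = (1 - t) • z + t • (z + s) := by
          rw [sub_smul, one_smul, smul_add]
          abel
        rw [h2]
        exact (convex_ball x r) hz hs (by linarith [ht.2]) ht.1.le (by ring)
      rw [hD, indicator_of_mem hmem, mul_comm]
      refine mul_le_mul' ?_ le_rfl
      rw [← ofReal_norm]
      refine ENNReal.ofReal_le_ofReal ?_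
      rw [mem_ball_zero_iff] at hs2
      exact hs2.le
    · rw [indicator_of_notMem hs]
      exact bot_le
  calc ∫⁻ z in ball x r, ∫⁻ y in ball x r, ‖h y - h z‖ₑ
      ≤ ∫⁻ z in ball x r, ∫⁻ s in ball (0 : E) (2 * r), ENNReal.ofReal (2 * r) *
        ∫⁻ t in Ioc (0 : ℝ) 1, D (z + t • s) := setLIntegral_mono' measurableSet_ball h1
    _ ≤ ∫⁻ z, ∫⁻ s in ball (0 : E) (2 * r), ENNReal.ofReal (2 * r) *
        ∫⁻ t in Ioc (0 : ℝ) 1, D (z + t • s) := setLIntegral_le_lintegral _ _
    _ = ∫⁻ s in ball (0 : E) (2 * r), ∫⁻ z, ENNReal.ofReal (2 * r) *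
        ∫⁻ t in Ioc (0 : ℝ) 1, D (z + t • s) := by
        refine lintegral_lintegral_swap ?_
        refine Measurable.aemeasurable ?_
        refine Measurable.const_mul ?_ _
        exact Measurable.lintegral_prod_right'
          (f := fun q : (E × E) × ℝ => D (q.1.1 + q.2 • q.1.2)) (hDm.comp (by fun_prop))
    _ = ∫⁻ s in ball (0 : E) (2 * r), ENNReal.ofReal (2 * r) * ∫⁻ y, D y := by
        refine setLIntegral_congr_fun measurableSet_ball fun s _ => ?_
        show ∫⁻ z, ENNReal.ofReal (2 * r) * ∫⁻ t in Ioc (0 : ℝ) 1, D (z + t • s) = _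
        rw [lintegral_const_mul]
        · congr 1
          rw [lintegral_lintegral_swap]
          · have e3 : ∀ t : ℝ, ∫⁻ z, D (z + t • s) = ∫⁻ y, D y := fun t =>
              lintegral_add_right_eq_self D (t • s)
            simp only [e3]
            rw [setLIntegral_const]
            simp
          · exact (hDm.comp (by fun_prop)).aemeasurable
        · exact Measurable.lintegral_prod_right'
            (f := fun q : E × ℝ => D (q.1 + q.2 • s)) (hDm.comp (by fun_prop))
    _ = _ := by
        rw [setLIntegral_const]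
        ring

/-- the mollified map -/
noncomputable def mo (ρ : ContDiffBump (0 : E)) (F : E → V) : E → V :=
  fun x => ∫ y, ρ.normed volume (x - y) • F y

theorem lint_normed (ρ : ContDiffBump (0 : E)) : ∫⁻ y, ‖ρ.normed volume y‖ₑ = 1 := by
  have h1 := ρ.integral_normed (μ := (volume : Measure E))
  have h2 := ofReal_integral_eq_lintegral_ofReal (ρ.integrable_normed (μ := (volume : Measure E)))
    (Eventually.of_forall fun y => ρ.nonneg_normed y)
  rw [h1, ENNReal.ofReal_one] at h2
  rw [h2]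
  refine lintegral_congr fun y => ?_
  rw [Real.enorm_eq_ofReal (ρ.nonneg_normed y)]

theorem mo_facts {Θ : E → V} {G : E → E →L[ℝ] V} {U : Set E}
    (hΘ : LocallyIntegrableOn Θ U) (hG : LocallyIntegrableOn G U)
    (hw : ∀ φ : E → ℝ, ContDiff ℝ ∞ φ → HasCompactSupport φ → tsupport φ ⊆ U → ∀ a : E,
      ∫ y, fderiv ℝ φ y a • Θ y = - ∫ y, φ y • G y a)
    {x : E} {r : ℝ} (hxr : closedBall x (2 * r) ⊆ U) (ρ : ContDiffBump (0 : E))
    (hρr : ρ.rOut ≤ r) :
    ContDiff ℝ 1 (mo ρ ((ball x (2 * r)).indicator Θ)) ∧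
      ∫⁻ y in ball x r, ‖fderiv ℝ (mo ρ ((ball x (2 * r)).indicator Θ)) y‖ₑ ≤
        ∫⁻ y in ball x (2 * r), ‖G y‖ₑ := by
  have : CompleteSpace V := FiniteDimensional.complete ℝ V
  obtain ⟨F, hF⟩ : ∃ F : E → V, F = (ball x (2 * r)).indicator Θ := ⟨_, rfl⟩
  obtain ⟨G₀, hG₀⟩ : ∃ G₀ : E → E →L[ℝ] V, G₀ = (ball x (2 * r)).indicator G := ⟨_, rfl⟩
  rw [← hF]
  have hFi : Integrable F volume := by
    rw [hF, integrable_indicator_iff measurableSet_ball]
    exact (hΘ.integrableOn_compact_subset hxr (isCompact_closedBall x (2 * r))).mono_set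
      ball_subset_closedBall
  have hGi : Integrable G₀ volume := by
    rw [hG₀, integrable_indicator_iff measurableSet_ball]
    exact (hG.integrableOn_compact_subset hxr (isCompact_closedBall x (2 * r))).mono_set
      ball_subset_closedBall
  have hFl : LocallyIntegrable F volume := hFi.locallyIntegrable
  have hGl : LocallyIntegrable G₀ volume := hGi.locallyIntegrable
  obtain ⟨L, hL⟩ : ∃ L : V →L[ℝ] ℝ →L[ℝ] V, L = (ContinuousLinearMap.lsmul ℝ ℝ).flip := ⟨_, rfl⟩
  obtain ⟨L', hL'⟩ : ∃ L' : (E →L[ℝ] V) →L[ℝ] ℝ →L[ℝ] (E →L[ℝ] V),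
    L' = (ContinuousLinearMap.lsmul ℝ ℝ).flip := ⟨_, rfl⟩
  obtain ⟨g, hg⟩ : ∃ g : E → ℝ, g = ρ.normed volume := ⟨_, rfl⟩
  have hρ : ContDiff ℝ ∞ g := by rw [hg]; exact ρ.contDiff_normed
  have hρ1 : ContDiff ℝ 1 g := hρ.of_le (by simp)
  have hρc : HasCompactSupport g := by rw [hg]; exact ρ.hasCompactSupport_normed
  have hgd : Differentiable ℝ g := hρ1.differentiable one_ne_zero
  have e : mo ρ F = MeasureTheory.convolution F g L volume := by
    funext z
    rw [hg, hL]
    rfl
  refine ⟨?_, ?_⟩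
  · rw [e]
    exact hρc.contDiff_convolution_right L hFl hρ1
  · have hpt : ∀ y₀ ∈ ball x r, ‖fderiv ℝ (mo ρ F) y₀‖ₑ ≤ ∫⁻ t, ‖g (y₀ - t)‖ₑ * ‖G₀ t‖ₑ := by
      intro y₀ hy₀
      obtain ⟨φ, hφ⟩ : ∃ φ : E → ℝ, φ = fun y => g (y₀ - y) := ⟨_, rfl⟩
      have hφs : ContDiff ℝ ∞ φ := by
        rw [hφ]
        exact hρ.comp (contDiff_const.sub contDiff_id)
      have hφc : HasCompactSupport φ := by
        rw [hφ]
        exact hρc.comp_homeomorph (Homeomorph.subLeft y₀)
      have hφt : tsupport φ ⊆ closedBall y₀ ρ.rOut := by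
        refine closure_minimal ?_ isClosed_closedBall
        intro y hy
        rw [hφ] at hy
        have h1 : y₀ - y ∈ Function.support g := hy
        rw [hg, ρ.support_normed_eq, mem_ball, dist_zero_right] at h1
        rw [mem_closedBall, dist_comm, dist_eq_norm]
        exact h1.le
      have hφb : tsupport φ ⊆ ball x (2 * r) := by
        intro y hy
        have h1 := hφt hy
        rw [mem_closedBall] at h1
        rw [mem_ball] at hy₀ ⊢
        have h2 := dist_triangle y y₀ x
        linarith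
      have hφd : ∀ y v, fderiv ℝ φ y v = - fderiv ℝ g (y₀ - y) v := by
        intro y v
        have h1 : HasFDerivAt (fun z : E => y₀ - z) (-(ContinuousLinearMap.id ℝ E)) y :=
          (hasFDerivAt_id y).const_sub y₀
        have h2 := (hgd (y₀ - y)).hasFDerivAt.comp y h1
        have h3 : fderiv ℝ φ y = (fderiv ℝ g (y₀ - y)).comp (-(ContinuousLinearMap.id ℝ E)) := by
          rw [hφ]
          exact h2.fderiv
        rw [h3]
        simp
      have hφ0 : ∀ y, y ∉ ball x (2 * r) → fderiv ℝ φ y = 0 ∧ φ y = 0 := by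
        intro y hy
        have h1 : y ∉ tsupport φ := fun h => hy (hφb h)
        refine ⟨?_, image_eq_zero_of_notMem_tsupport h1⟩
        by_contra hne
        exact h1 (support_fderiv_subset ℝ (Function.mem_support.2 hne))
      have hI : Integrable (fun t => (L.precompR E) (F t) (fderiv ℝ g (y₀ - t))) volume :=
        (hρc.fderiv ℝ).convolutionExists_right (L.precompR E) hFl
          (hρ1.continuous_fderiv one_ne_zero) y₀
      have hI' : Integrable (fun t => g (y₀ - t) • G₀ t) volume := by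
        have h1 := hρc.convolutionExists_right L' hGl hρ1.continuous y₀
        rw [hL'] at h1
        exact h1
      have hval : ∀ t c, ((L.precompR E) (F t) (fderiv ℝ g (y₀ - t))) c
          = fderiv ℝ g (y₀ - t) c • F t := by
        intro t c
        rw [hL]
        rfl
      have hder : fderiv ℝ (mo ρ F) y₀ = ∫ t, g (y₀ - t) • G₀ t := by
        ext a
        rw [e, (hρc.hasFDerivAt_convolution_right L hFl hρ1 y₀).fderiv]
        change (∫ t, (L.precompR E) (F t) (fderiv ℝ g (y₀ - t))) a = _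
        rw [ContinuousLinearMap.integral_apply hI, ContinuousLinearMap.integral_apply hI']
        have h1 := hw φ hφs hφc (hφb.trans (ball_subset_closedBall.trans hxr)) a
        have h2 : ∫ t, ((L.precompR E) (F t) (fderiv ℝ g (y₀ - t))) a =
            -∫ t, fderiv ℝ φ t a • Θ t := by
          rw [← integral_neg]
          refine integral_congr_ae (Filter.Eventually.of_forall fun t => ?_)
          show ((L.precompR E) (F t) (fderiv ℝ g (y₀ - t))) a = -(fderiv ℝ φ t a • Θ t)
          rw [hval, ← neg_smul]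
          by_cases ht : t ∈ ball x (2 * r)
          · rw [hF, indicator_of_mem ht, hφd, neg_neg]
          · have h3 := hφd t a
            rw [(hφ0 t ht).1] at h3
            have h4 : fderiv ℝ g (y₀ - t) a = 0 := by simpa using h3.symm
            rw [h4, (hφ0 t ht).1]
            simp
        have h3 : ∫ t, (g (y₀ - t) • G₀ t) a = ∫ t, φ t • G t a := by
          refine integral_congr_ae (Filter.Eventually.of_forall fun t => ?_)
          show (g (y₀ - t) • G₀ t) a = φ t • G t a
          rw [_root_.smul_apply]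
          by_cases ht : t ∈ ball x (2 * r)
          · rw [hG₀, indicator_of_mem ht, hφ]
          · have h4 := (hφ0 t ht).2
            rw [h4, zero_smul]
            rw [hφ] at h4
            change g (y₀ - t) = 0 at h4
            rw [h4, zero_smul]
        rw [h2, h3, h1, neg_neg]
      rw [hder]
      refine (enorm_integral_le_lintegral_enorm _).trans ?_
      refine lintegral_mono fun t => ?_
      rw [enorm_smul]
    calc ∫⁻ y in ball x r, ‖fderiv ℝ (mo ρ F) y‖ₑ
        ≤ ∫⁻ y in ball x r, ∫⁻ t, ‖g (y - t)‖ₑ * ‖G₀ t‖ₑ :=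
          setLIntegral_mono' measurableSet_ball hpt
      _ ≤ ∫⁻ y, ∫⁻ t, ‖g (y - t)‖ₑ * ‖G₀ t‖ₑ := setLIntegral_le_lintegral _ _
      _ = ∫⁻ t, ∫⁻ y, ‖g (y - t)‖ₑ * ‖G₀ t‖ₑ := by
          refine lintegral_lintegral_swap ?_
          have h1 : Measurable fun q : E × E => g (q.1 - q.2) :=
            hρ1.continuous.measurable.comp (by fun_prop)
          have m1 : AEMeasurable (fun q : E × E => ‖g (q.1 - q.2)‖ₑ)
            ((volume : Measure E).prod (volume : Measure E)) := h1.enorm.aemeasurable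
          have m2 : AEMeasurable (fun q : E × E => ‖G₀ q.2‖ₑ)
            ((volume : Measure E).prod (volume : Measure E)) :=
            hGi.aestronglyMeasurable.enorm.comp_snd
          exact m1.mul m2
      _ = ∫⁻ t, ‖G₀ t‖ₑ := by
          refine lintegral_congr fun t => ?_
          rw [lintegral_mul_const]
          · rw [lintegral_sub_right_eq_self (fun y => ‖g y‖ₑ) t, hg, lint_normed, one_mul]
          · have h1 : Measurable fun q : E => g (q - t) :=
              hρ1.continuous.measurable.comp (by fun_prop)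
            exact h1.enorm
      _ = ∫⁻ y in ball x (2 * r), ‖G y‖ₑ := by
          rw [← lintegral_indicator measurableSet_ball]
          refine lintegral_congr fun t => ?_
          rw [hG₀]
          by_cases ht : t ∈ ball x (2 * r)
          · rw [indicator_of_mem ht, indicator_of_mem ht]
          · rw [indicator_of_notMem ht, indicator_of_notMem ht, enorm_zero]

theorem poin_core (E : Type) [NormedAddCommGroup E] [InnerProductSpace ℝ E]
    [FiniteDimensional ℝ E] [MeasurableSpace E] [BorelSpace E] :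
    ∃ C : ℝ, 0 < C ∧ ∀ (V : Type) [NormedAddCommGroup V] [NormedSpace ℝ V] [FiniteDimensional ℝ V]
      (Θ : E → V) (G : E → E →L[ℝ] V) (U : Set E), IsOpen U →
      LocallyIntegrableOn Θ U → LocallyIntegrableOn G U →
      (∀ φ : E → ℝ, ContDiff ℝ ∞ φ → HasCompactSupport φ → tsupport φ ⊆ U → ∀ a : E,
        ∫ y, fderiv ℝ φ y a • Θ y = - ∫ y, φ y • G y a) →
      ∀ (x : E) (r : ℝ), 0 < r → closedBall x (2 * r) ⊆ U →
        ∃ B : V, ∫⁻ y in ball x r, ‖Θ y - B‖ₑ
          ≤ ENNReal.ofReal (C * r) * ∫⁻ y in ball x (2 * r), ‖G y‖ₑ := by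
  refine ⟨2 * 2 ^ Module.finrank ℝ E, by positivity, ?_⟩
  intro V _ _ _ Θ G U _ hΘ hG hw x r hr hxr
  obtain ⟨F, hF⟩ : ∃ F : E → V, F = (ball x (2 * r)).indicator Θ := ⟨_, rfl⟩
  obtain ⟨M, hM⟩ : ∃ M, M = ∫⁻ y in ball x (2 * r), ‖G y‖ₑ := ⟨_, rfl⟩
  rw [← hM]
  have hsub : ball x r ⊆ ball x (2 * r) := ball_subset_ball (by linarith)
  have hFΘ : ∀ y ∈ ball x r, F y = Θ y := by
    intro y hy
    rw [hF, indicator_of_mem (hsub hy)]
  have hFi : Integrable F volume := by
    rw [hF, integrable_indicator_iff measurableSet_ball]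
    exact (hΘ.integrableOn_compact_subset hxr (isCompact_closedBall x (2 * r))).mono_set
      ball_subset_closedBall
  have hn : ∀ n : ℕ, (0 : ℝ) < (n : ℝ) + 2 := fun n => by positivity
  obtain ⟨ρ, hρI, hρO⟩ : ∃ ρ : ℕ → ContDiffBump (0 : E), (∀ n, (ρ n).rIn = r / (2 * ((n : ℝ) + 2))) ∧
      ∀ n, (ρ n).rOut = r / ((n : ℝ) + 2) := by
    refine ⟨fun n => ⟨r / (2 * ((n : ℝ) + 2)), r / ((n : ℝ) + 2), div_pos hr (by positivity), ?_⟩,
      fun _ => rfl, fun _ => rfl⟩
    exact div_lt_div_of_pos_left hr (hn n) (by linarith [hn n])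
  have hρr : ∀ n, (ρ n).rOut ≤ r := by
    intro n
    rw [hρO]
    exact div_le_self hr.le (by have : (0 : ℝ) ≤ n := Nat.cast_nonneg n; linarith)
  obtain ⟨h, hh⟩ : ∃ h : ℕ → E → V, h = fun n => mo (ρ n) F := ⟨_, rfl⟩
  have hfacts : ∀ n, ContDiff ℝ 1 (h n) ∧ ∫⁻ y in ball x r, ‖fderiv ℝ (h n) y‖ₑ ≤ M := by
    intro n
    rw [hh, hM, hF]
    exact mo_facts hΘ hG hw hxr (ρ n) (hρr n)
  obtain ⟨c, hc⟩ : ∃ c, c = ENNReal.ofReal (2 * r) * volume (ball (0 : E) (2 * r)) * M := ⟨_, rfl⟩
  have hbound : ∀ n, ∫⁻ z in ball x r, ∫⁻ y in ball x r, ‖h n y - h n z‖ₑ ≤ c := by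
    intro n
    refine (c1 (hfacts n).1 x r).trans ?_
    rw [hc]
    exact mul_le_mul' le_rfl (hfacts n).2
  have hlim : ∀ᵐ y ∂(volume : Measure E), Tendsto (fun n => h n y) atTop (𝓝 (F y)) := by
    have h1 : Tendsto (fun n => (ρ n).rOut) atTop (𝓝 0) := by
      simp only [hρO]
      have h2 : Tendsto (fun n : ℕ => (n : ℝ) + 2) atTop atTop :=
        tendsto_atTop_add_const_right _ _ tendsto_natCast_atTop_atTop
      exact Tendsto.const_div_atTop h2 r
    have h2 : ∀ᶠ n in atTop, (ρ n).rOut ≤ 2 * (ρ n).rIn := by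
      refine Eventually.of_forall fun n => ?_
      rw [hρO, hρI]
      have h3 := hn n
      rw [← mul_div_assoc, mul_div_mul_left _ _ (by norm_num : (2 : ℝ) ≠ 0)]
    have h3 := ContDiffBump.ae_convolution_tendsto_right_of_locallyIntegrable
      (μ := (volume : Measure E)) h1 h2 hFi.locallyIntegrable
    filter_upwards [h3] with y hy
    refine hy.congr fun n => ?_
    rw [convolution_eq_swap, hh]
    rfl
  have hcm : ∀ n, Measurable fun q : E × E => ‖h n q.2 - h n q.1‖ₑ := by
    intro n
    have h1 := (hfacts n).1.continuous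
    have h2 : Continuous fun q : E × E => h n q.2 - h n q.1 := by fun_prop
    exact h2.enorm.measurable
  have hlimB : ∀ᵐ y ∂(volume.restrict (ball x r)), Tendsto (fun n => h n y) atTop (𝓝 (F y)) :=
    ae_restrict_of_ae hlim
  have hfat1 : ∀ᵐ z ∂(volume.restrict (ball x r)), ∫⁻ y in ball x r, ‖F y - F z‖ₑ ≤
      liminf (fun n => ∫⁻ y in ball x r, ‖h n y - h n z‖ₑ) atTop := by
    filter_upwards [hlimB] with z hz
    have h1 : ∫⁻ y in ball x r, ‖F y - F z‖ₑ =
        ∫⁻ y in ball x r, liminf (fun n => ‖h n y - h n z‖ₑ) atTop := by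
      refine lintegral_congr_ae ?_
      filter_upwards [hlimB] with y hy
      exact ((hy.sub hz).enorm.liminf_eq).symm
    rw [h1]
    refine lintegral_liminf_le fun n => ?_
    exact (hcm n).comp (measurable_const.prodMk measurable_id)
  have hfat : ∫⁻ z in ball x r, ∫⁻ y in ball x r, ‖F y - F z‖ₑ ≤ c := by
    refine (lintegral_mono_ae hfat1).trans ?_
    refine (lintegral_liminf_le fun n => ?_).trans ?_
    · exact Measurable.lintegral_prod_right' (hcm n)
    · refine (liminf_le_liminf (Eventually.of_forall hbound)).trans ?_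
      rw [liminf_const]
  -- the reference value
  have hv0 : volume (ball x r) ≠ 0 := (measure_ball_pos volume x hr).ne'
  have hvt : volume (ball x r) ≠ ⊤ := measure_ball_lt_top.ne
  have hmeas : AEMeasurable (fun z => ∫⁻ y in ball x r, ‖F y - F z‖ₑ)
      (volume.restrict (ball x r)) := by
    have hs : AEStronglyMeasurable F (volume.restrict (ball x r)) :=
      hFi.aestronglyMeasurable.restrict
    have h1 : AEStronglyMeasurable (fun q : E × E => F q.2 - F q.1)
        ((volume.restrict (ball x r)).prod (volume.restrict (ball x r))) :=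
      hs.comp_snd.sub hs.comp_fst
    exact AEMeasurable.lintegral_prod_right' h1.enorm
  obtain ⟨z, hz, hz1⟩ := exists_le_setLAverage hv0 hvt hmeas
  refine ⟨F z, ?_⟩
  have h1 : ∫⁻ y in ball x r, ‖Θ y - F z‖ₑ = ∫⁻ y in ball x r, ‖F y - F z‖ₑ := by
    refine setLIntegral_congr_fun measurableSet_ball fun y hy => ?_
    show ‖Θ y - F z‖ₑ = ‖F y - F z‖ₑ
    rw [hFΘ y hy]
  rw [h1]
  refine hz1.trans ?_
  rw [setLAverage_eq]
  refine ENNReal.div_le_of_le_mul (hfat.trans ?_)
  rw [hc, Measure.addHaar_ball_of_pos volume (0 : E) (by positivity : 0 < 2 * r),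
    Measure.addHaar_ball_of_pos volume x hr, mul_pow, ENNReal.ofReal_mul (by positivity),
    ENNReal.ofReal_mul (by positivity : (0 : ℝ) ≤ 2 ^ Module.finrank ℝ E),
    ENNReal.ofReal_mul (by positivity : (0 : ℝ) ≤ 2 * 2 ^ Module.finrank ℝ E),
    ENNReal.ofReal_mul (by positivity : (0 : ℝ) ≤ 2)]
  apply le_of_eq
  ring

end Pool.Agent.Y419.SY
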