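import Pool.Agent.Y685.SY.Stm2
import Pool.Agent.Y419.SY.PoinCore

set_option autoImplicit false
set_option maxSynthPendingDepth 3

/-!
# Project SY, job POIN: Poincare's inequality for weakly differentiable functions
-/

open scoped ContDiff Topology ENNReal
open MeasureTheory Set Metric

namespace Pool.Agent.Y419.SY

variable (E : Type) [NormedAddCommGroup E] [InnerProductSpace ℝ E] [FiniteDimensional ℝ E]
  [MeasurableSpace E] [BorelSpace E]

theorem t_POIN : Pool.Agent.Y685.SY.S_POIN E := poin_core E

end Pool.Agent.Y419.SY
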