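import Pool.Agent.Y685.SY.Stm3
import Pool.Agent.Y141.SY.Ext

/-!
Extension by zero of a family of 1-forms with compact support in a chart (job SY3-EXTF).
-/

set_option autoImplicit false
set_option linter.all false
set_option maxSynthPendingDepth 3

open scoped Manifold ContDiff Topology ENNReal
open MeasureTheory Set Metric Filter
open Pool.Agent.Y519.AS (TwoForm)
open Pool.Agent.Helper831 (coordVec)
open Pool.Agent.Y685.SY
open Pool.Agent.Y141.SY

namespace Pool.Agent.Y419.SY3

section maps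
variable {E : Type} [NormedAddCommGroup E] [NormedSpace ℝ E]
  {ι : Type} [TopologicalSpace ι] [CompactSpace ι]
  {V : Type} [NormedAddCommGroup V] [NormedSpace ℝ V]

/-- precomposition of a family of linear maps with a linear map -/
noncomputable def pre :
    C(ι, E →L[ℝ] V) →L[ℝ] (E →L[ℝ] E) →L[ℝ] C(ι, E →L[ℝ] V) :=
  LinearMap.mkContinuous₂
    (LinearMap.mk₂ ℝ (fun (f : C(ι, E →L[ℝ] V)) (F : E →L[ℝ] E) =>
        (⟨fun t => (f t).comp F, (f.continuous).clm_comp continuous_const⟩ : C(ι, E →L[ℝ] V)))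
      (fun f f' F => by ext t x; simp)
      (fun c f F => by ext t x; simp)
      (fun f F F' => by ext t x; simp)
      (fun c f F => by ext t x; simp)) 1
    (fun f F => by
      rw [one_mul, ContinuousMap.norm_le _ (by positivity)]
      intro t
      exact ((f t).opNorm_comp_le F).trans
        (mul_le_mul_of_nonneg_right (f.norm_coe_le_norm t) (norm_nonneg _)))

theorem pre_apply (f : C(ι, E →L[ℝ] V)) (F : E →L[ℝ] E) (t : ι) :
    pre f F t = (f t).comp F := rfl

/-- evaluation at `t` -/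
noncomputable def ev (t : ι) : C(ι, V) →L[ℝ] V := ContinuousMap.evalCLM ℝ t

theorem ev_apply (t : ι) (f : C(ι, V)) : ev t f = f t := rfl

variable [FiniteDimensional ℝ E]

/-- a linear map into the families, as a family of linear maps -/
noncomputable def lam : (E →L[ℝ] C(ι, V)) →L[ℝ] C(ι, E →L[ℝ] V) :=
  LinearMap.mkContinuous
    { toFun := fun L => (⟨fun t => (ev t).comp L, by
        rw [continuous_clm_apply]
        intro y
        exact (L y).continuous⟩ : C(ι, E →L[ℝ] V))
      map_add' := fun L L' => by ext t x; simp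
      map_smul' := fun c L => by ext t x; simp } 1
    (fun L => by
      rw [one_mul, ContinuousMap.norm_le _ (by positivity)]
      intro t
      refine ContinuousLinearMap.opNorm_le_bound _ (norm_nonneg _) fun x => ?_
      exact ((L x).norm_coe_le_norm t).trans (L.le_opNorm x))

theorem lam_apply (L : E →L[ℝ] C(ι, V)) (t : ι) (x : E) : lam L t x = L x t := rfl

/-- antisymmetrization -/
noncomputable def asym : (E →L[ℝ] E →L[ℝ] ℝ) →L[ℝ] (E →L[ℝ] E →L[ℝ] ℝ) :=
  ContinuousLinearMap.id ℝ _ -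
    ((ContinuousLinearMap.flipₗᵢ ℝ E E ℝ).toContinuousLinearEquiv :
      (E →L[ℝ] E →L[ℝ] ℝ) →L[ℝ] (E →L[ℝ] E →L[ℝ] ℝ))

omit [FiniteDimensional ℝ E] in
theorem asym_apply (L : E →L[ℝ] E →L[ℝ] ℝ) (a b : E) : asym L a b = L a b - L b a := rfl

end maps

section man
variable {E : Type} [NormedAddCommGroup E] [InnerProductSpace ℝ E] [FiniteDimensional ℝ E]
  {M : Type} [TopologicalSpace M] [ChartedSpace E M]
  {ι : Type} [TopologicalSpace ι] [CompactSpace ι]

/-- the member `t` of the family `B` -/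
noncomputable def mb (B : E → C(ι, E →L[ℝ] ℝ)) (t : ι) : E → E →L[ℝ] ℝ := fun y => B y t

omit [FiniteDimensional ℝ E] in
theorem mb_cd {B : E → C(ι, E →L[ℝ] ℝ)} (hB : ContDiff ℝ ∞ B) (t : ι) :
    ContDiff ℝ ∞ (mb B t) := by
  show ContDiff ℝ ∞ (fun y => ev (V := E →L[ℝ] ℝ) t (B y))
  exact (ev (V := E →L[ℝ] ℝ) t).contDiff.comp hB

omit [FiniteDimensional ℝ E] [CompactSpace ι] in
theorem mb_supp (B : E → C(ι, E →L[ℝ] ℝ)) (t : ι) : tsupport (mb B t) ⊆ tsupport B := by
  refine closure_mono fun y hy => ?_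
  intro h
  apply hy
  show B y t = 0
  rw [h]
  rfl

omit [FiniteDimensional ℝ E] [CompactSpace ι] in
theorem mb_hc {B : E → C(ι, E →L[ℝ] ℝ)} (hc : HasCompactSupport B) (t : ι) :
    HasCompactSupport (mb B t) :=
  hc.isCompact.of_isClosed_subset (isClosed_tsupport _) (mb_supp B t)

open scoped Classical in
/-- the components of the family of 1-forms in the chart `e` -/
noncomputable def comp1 (e₀ e : OpenPartialHomeomorph M E) (B : E → C(ι, E →L[ℝ] ℝ)) (y : E) :
    C(ι, E →L[ℝ] ℝ) :=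
  if y ∈ trD e e₀ then pre (B (tr e e₀ y)) (fderiv ℝ (tr e e₀) y) else 0

variable [IsManifold 𝓘(ℝ, E) ∞ M]

theorem comp1_eq (h : S_TRANS E M) {e₀ e : OpenPartialHomeomorph M E}
    (he₀ : e₀ ∈ atlas E M) (he : e ∈ atlas E M) (B : E → C(ι, E →L[ℝ] ℝ)) {y : E}
    (hy : y ∈ e.target) (t : ι) :
    comp1 e₀ e B y t = co1 (ext1 e₀ (mb B t)) e y := by
  unfold comp1
  by_cases hy' : y ∈ trD e e₀
  · rw [if_pos hy', pre_apply]
    ext u
    rw [ext1_tr h he₀ he hy' u]
    rfl
  · rw [if_neg hy']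
    ext u
    rw [ext1_out (fun h1 => hy' ⟨hy, h1⟩) u]
    rfl

theorem comp1_cd [T2Space M] (h : S_TRANS E M) {e₀ e : OpenPartialHomeomorph M E}
    (he₀ : e₀ ∈ atlas E M) (he : e ∈ atlas E M) {B : E → C(ι, E →L[ℝ] ℝ)} (hB : ContDiff ℝ ∞ B)
    (hc : HasCompactSupport B) (hs : tsupport B ⊆ e₀.target) :
    ContDiffOn ℝ ∞ (comp1 e₀ e B) e.target := by
  intro y hy
  refine ContDiffAt.contDiffWithinAt ?_
  by_cases hy' : e.symm y ∈ e₀.source
  · obtain ⟨ho, hcd, -⟩ := h e he e₀ he₀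
    have hyD : y ∈ trD e e₀ := ⟨hy, hy'⟩
    have hf : ContDiffAt ℝ ∞ (tr e e₀) y := hcd.contDiffAt (ho.mem_nhds hyD)
    have h1 : ContDiffAt ℝ ∞ (fun z => pre (B (tr e e₀ z)) (fderiv ℝ (tr e e₀) z)) y := by
      have h2 : ContDiffAt ℝ ∞ (fun z => pre (B (tr e e₀ z))) y :=
        (pre (E := E) (ι := ι) (V := ℝ)).contDiff.contDiffAt.comp y (hB.contDiffAt.comp y hf)
      exact h2.clm_apply (cd_fderiv hf)
    refine h1.congr_of_eventuallyEq ?_
    filter_upwards [ho.mem_nhds hyD] with z hz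
    exact if_pos hz
  · have hC : IsCompact (e₀.symm '' tsupport B) := hc.isCompact.image_of_continuousOn
      (e₀.continuousOn_symm.mono hs)
    have hCs : e₀.symm '' tsupport B ⊆ e₀.source := by
      rintro _ ⟨z, hz, rfl⟩
      exact e₀.map_target (hs hz)
    have h1 : e.symm y ∈ (e₀.symm '' tsupport B)ᶜ := fun hh => hy' (hCs hh)
    have h2 : ∀ᶠ z in 𝓝 y, e.symm z ∈ (e₀.symm '' tsupport B)ᶜ :=
      (e.symm.continuousAt hy).eventually_mem (hC.isClosed.isOpen_compl.mem_nhds h1)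
    refine (contDiffAt_const (c := (0 : C(ι, E →L[ℝ] ℝ)))).congr_of_eventuallyEq ?_
    filter_upwards [h2] with z hz
    show comp1 e₀ e B z = 0
    unfold comp1
    split_ifs with hz'
    · have h3 : B (tr e e₀ z) = 0 := by
        by_contra hne
        exact hz ⟨tr e e₀ z, subset_tsupport _ hne, e₀.left_inv hz'.2⟩
      rw [h3, map_zero]
      rfl
    · rfl

/-- the properties of the extension by zero -/
theorem ext_all [T2Space M] (h : S_TRANS E M) {e₀ : OpenPartialHomeomorph M E}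
    (he₀ : e₀ ∈ atlas E M) {B : E → E →L[ℝ] ℝ} (hB : ContDiff ℝ ∞ B)
    (hc : HasCompactSupport B) (hs : tsupport B ⊆ e₀.target) :
    SmoothCov (ext1 e₀ B) ∧ (ext2 e₀ B).IsSmooth ∧ (ext2 e₀ B).IsClosedForm ∧
      (∀ e ∈ atlas E M, ∀ y ∈ e.target, ∀ a b : E, (ext2 e₀ B).coeff e y a b
        = fderiv ℝ (fun z => co1 (ext1 e₀ B) e z b) y a
          - fderiv ℝ (fun z => co1 (ext1 e₀ B) e z a) y b) ∧
      (∀ y ∈ e₀.target, ∀ a b : E, (ext2 e₀ B).coeff e₀ y a b
        = fderiv ℝ B y a b - fderiv ℝ B y b a) ∧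
      (∀ e ∈ atlas E M, ∀ y ∈ e.target, e.symm y ∉ e₀.source → ∀ a b : E,
        (ext2 e₀ B).coeff e y a b = 0) := by
  have hcd : ∀ e ∈ atlas E M, ∀ u : E, ∀ y ∈ e.target,
      ContDiffAt ℝ ∞ (fun z => co1 (ext1 e₀ B) e z u) y := fun e he u y hy =>
    co1_cd h he₀ he hB hc hs u hy
  have hfor : ∀ e ∈ atlas E M, ∀ y ∈ e.target, ∀ a b : E, (ext2 e₀ B).coeff e y a b =
      fderiv ℝ (fun z => co1 (ext1 e₀ B) e z b) y a -
        fderiv ℝ (fun z => co1 (ext1 e₀ B) e z a) y b := fun e he y hy a b =>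
    formula h he₀ he hB hc hs hy a b
  have hev : ∀ e ∈ atlas E M, ∀ y ∈ e.target, ∀ a b : E,
      (fun z => (ext2 e₀ B).coeff e z a b) =ᶠ[𝓝 y] fun z =>
      fderiv ℝ (fun z => co1 (ext1 e₀ B) e z b) z a -
        fderiv ℝ (fun z => co1 (ext1 e₀ B) e z a) z b := by
    intro e he y hy a b
    filter_upwards [e.open_target.mem_nhds hy] with z hz
    exact hfor e he z hz a b
  refine ⟨?_, ?_, ?_, hfor, ?_, ?_⟩
  · intro e he u y hy
    exact (hcd e he u y hy).contDiffWithinAt
  · intro e he u w y hy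
    refine ContDiffAt.contDiffWithinAt (ContDiffAt.congr_of_eventuallyEq ?_ (hev e he y hy u w))
    exact (cd_fderiv_apply (hcd e he w y hy) u).sub (cd_fderiv_apply (hcd e he u y hy) w)
  · intro e he y hy a b c
    have key : ∀ a b c : E, fderiv ℝ (fun z => (ext2 e₀ B).coeff e z b c) y a =
        fderiv ℝ (fun z => fderiv ℝ (fun z => co1 (ext1 e₀ B) e z c) z b) y a -
          fderiv ℝ (fun z => fderiv ℝ (fun z => co1 (ext1 e₀ B) e z b) z c) y a := by
      intro a b c
      rw [(hev e he y hy b c).fderiv_eq]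
      have d1 := (cd_fderiv_apply (hcd e he c y hy) b).differentiableAt (by simp)
      have d2 := (cd_fderiv_apply (hcd e he b y hy) c).differentiableAt (by simp)
      have := fderiv_sub d1 d2
      exact congrArg (fun L => L a) this
    rw [key a b c, key b c a, key c a b, ddz (hcd e he c y hy) a b, ddz (hcd e he a y hy) b c,
      ddz (hcd e he b y hy) c a]
    ring
  · intro y hy a b
    exact ext2_in he₀ hy a b
  · intro e he y hy hy' a b
    exact ext2_out hy' a b

end man

section main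
variable (E : Type) [NormedAddCommGroup E] [InnerProductSpace ℝ E] [FiniteDimensional ℝ E]
  (M : Type) [TopologicalSpace M] [ChartedSpace E M] [IsManifold 𝓘(ℝ, E) ∞ M]

theorem t_EXTF (h : S_TRANS E M) : S_EXTF E M := by
  intro _ e₀ he₀ ι _ _ B hB hc hs
  have hall := fun t : ι => ext_all h he₀ (mb_cd hB t) (mb_hc hc t)
    ((mb_supp B t).trans hs)
  refine ⟨fun t => ext1 e₀ (mb B t), fun t => ext2 e₀ (mb B t), ?_, ?_, ?_⟩
  · intro e he
    exact ⟨comp1 e₀ e B, comp1_cd h he₀ he hB hc hs, fun y hy t => comp1_eq h he₀ he B hy t⟩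
  · intro e he
    have hb := comp1_cd h he₀ he hB hc hs
    have hb' : ContDiffOn ℝ ∞ (fderiv ℝ (comp1 e₀ e B)) e.target :=
      hb.fderiv_of_isOpen e.open_target (by simp)
    refine ⟨fun y => (asym (E := E)).compLeftContinuous ℝ ι (lam (fderiv ℝ (comp1 e₀ e B) y)),
      ?_, ?_⟩
    · exact (((asym (E := E)).compLeftContinuous ℝ ι).comp
        (lam (E := E) (ι := ι) (V := E →L[ℝ] ℝ))).contDiff.comp_contDiffOn hb'
    · intro y hy t
      ext a c
      rw [co_apply, (hall t).2.2.2.1 e he y hy a c]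
      have hd : DifferentiableAt ℝ (comp1 e₀ e B) y :=
        (hb.contDiffAt (e.open_target.mem_nhds hy)).differentiableAt (by simp)
      have key : ∀ a c : E, fderiv ℝ (fun z => co1 (ext1 e₀ (mb B t)) e z c) y a
          = fderiv ℝ (comp1 e₀ e B) y a t c := by
        intro a c
        have h1 : (fun z => co1 (ext1 e₀ (mb B t)) e z c) =ᶠ[𝓝 y]
            fun z => ((ContinuousLinearMap.apply ℝ ℝ c).comp (ev t)) (comp1 e₀ e B z) := by
          filter_upwards [e.open_target.mem_nhds hy] with z hz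
          show _ = comp1 e₀ e B z t c
          rw [comp1_eq h he₀ he B hz t]
        rw [h1.fderiv_eq]
        have h2 := (((ContinuousLinearMap.apply ℝ ℝ c).comp
          (ev (V := E →L[ℝ] ℝ) t)).hasFDerivAt (x := comp1 e₀ e B y)).comp y hd.hasFDerivAt
        have h3 := h2.fderiv
        exact congrArg (fun L => L a) h3
      rw [key, key]
      rfl
  · intro t
    exact hall t

end main

end Pool.Agent.Y419.SY3
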